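import Mathlib
import Pool.Agent.H9.Adic

namespace Pool.Agent.Results.MP_68df70_lc.HalfLength

open Finset

/-- The `N`-adic integer with digits `b` equals `f / g` in lowest terms with `g > 0`:
`g * (b_0 + b_1 N + ... + b_(k-1) N^(k-1)) ≡ f` modulo `N ^ k` for every `k`. -/
def IsRep (N : ℕ) (b : ℕ → Fin N) (f g : ℤ) : Prop :=
  0 < g ∧ Int.gcd f g = 1 ∧
    ∀ k : ℕ, (N : ℤ) ^ k ∣ g * (∑ i ∈ range k, ((b i : ℕ) : ℤ) * (N : ℤ) ^ i) - f

/-- The `N`-adic complexity of a finite sequence: the least `log_N max(|f|, |g|)` over all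
infinite extensions with a rational value `f / g`. -/
noncomputable def cplx (N n : ℕ) (a : Fin n → Fin N) : ℝ :=
  sInf {x | ∃ (b : ℕ → Fin N) (f g : ℤ), (∀ i : Fin n, b i = a i) ∧ IsRep N b f g ∧
    x = Real.logb N (max |(f : ℝ)| |(g : ℝ)|)}

/-- The average over all sequences of length `n`. -/
noncomputable def Efin (N n : ℕ) : ℝ := ((N : ℝ) ^ n)⁻¹ * ∑ a : Fin n → Fin N, cplx N n a

open Pool.Agent.H9.Adic

lemma exists_digit (N : ℕ) (hN : 2 ≤ N) (g : ℤ) (hg : IsCoprime g N) (r : ℤ) :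
    ∃ d : Fin N, (N : ℤ) ∣ r + g * ((d : ℕ) : ℤ) := by
  obtain ⟨u, v, huv⟩ := hg
  have hN0 : (N : ℤ) ≠ 0 := by exact_mod_cast (by omega : N ≠ 0)
  have h1 := Int.emod_nonneg (-(r * u)) hN0
  have h2 := Int.emod_lt_of_pos (-(r * u)) (by exact_mod_cast (by omega : 0 < N) : (0 : ℤ) < N)
  have h3 := Int.emod_add_mul_ediv (-(r * u)) N
  refine ⟨⟨(-(r * u) % N).toNat, by omega⟩, ?_⟩
  simp only [Int.toNat_of_nonneg h1]
  refine ⟨r * v - g * (-(r * u) / N), ?_⟩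
  linear_combination (-r) * huv + g * h3

lemma val_eq {N n : ℕ} (a : Fin n → Fin N) (b : ℕ → Fin N) (h : ∀ i : Fin n, b i = a i) :
    ∑ i ∈ range n, ((b i : ℕ) : ℤ) * (N : ℤ) ^ i = ((finFunctionFinEquiv a : ℕ) : ℤ) := by
  rw [finFunctionFinEquiv_apply, ← Fin.sum_univ_eq_sum_range
    (fun i => ((b i : ℕ) : ℤ) * (N : ℤ) ^ i)]
  push_cast
  simp [h]

lemma exists_ext (N n : ℕ) (hN : 2 ≤ N) (a : Fin n → Fin N) (f g : ℤ) (hg : IsCoprime g N)
    (h : (N : ℤ) ^ n ∣ g * ((finFunctionFinEquiv a : ℕ) : ℤ) - f) :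
    ∃ b : ℕ → Fin N, (∀ i : Fin n, b i = a i) ∧
      ∀ k : ℕ, (N : ℤ) ^ k ∣ g * (∑ i ∈ range k, ((b i : ℕ) : ℤ) * (N : ℤ) ^ i) - f := by
  choose d hd using exists_digit N hN g hg
  obtain ⟨r0, hr0⟩ := h
  let r : ℕ → ℤ := fun j => (fun x => (x + g * ((d x : ℕ) : ℤ)) / N)^[j] r0
  let b : ℕ → Fin N := fun i => if h : i < n then a ⟨i, h⟩ else d (r (i - n))
  have hb : ∀ i : Fin n, b i = a i := fun i => by simp [b]
  have hup : ∀ j, g * (∑ i ∈ range (n + j), ((b i : ℕ) : ℤ) * (N : ℤ) ^ i) - f =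
      (N : ℤ) ^ (n + j) * r j := by
    intro j
    induction j with
    | zero => rw [add_zero, val_eq a b hb, hr0]; rfl
    | succ j ih =>
      have e1 : b (n + j) = d (r j) := by simp [b]
      have e2 : r (j + 1) = (r j + g * ((d (r j) : ℕ) : ℤ)) / N :=
        Function.iterate_succ_apply' _ _ _
      have e3 := Int.mul_ediv_cancel' (hd (r j))
      rw [← add_assoc, sum_range_succ, e1, e2, pow_succ]
      linear_combination ih - (N : ℤ) ^ (n + j) * e3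
  refine ⟨b, hb, fun k => ?_⟩
  have h1 : (N : ℤ) ^ k ∣ g * (∑ i ∈ range (n + k), ((b i : ℕ) : ℤ) * (N : ℤ) ^ i) - f := by
    rw [hup k]
    exact Dvd.dvd.mul_right (pow_dvd_pow _ (by omega)) _
  rw [add_comm, sum_range_add] at h1
  have h2 : (N : ℤ) ^ k ∣ ∑ i ∈ range n, ((b (k + i) : ℕ) : ℤ) * (N : ℤ) ^ (k + i) :=
    dvd_sum fun i _ => Dvd.dvd.mul_left (pow_dvd_pow _ (by omega)) _
  have h3 := dvd_sub h1 (Dvd.dvd.mul_left h2 g)
  have e : ∀ A B : ℤ, g * (A + B) - f - g * B = g * A - f := fun A B => by ring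
  rwa [e] at h3

lemma normalize (N : ℕ) (hN : 2 ≤ N) (n : ℕ) (α f g : ℤ) (h : InL ((N : ℤ) ^ n) α f g)
    (hg : IsCoprime g N) : ∃ f' g' : ℤ, InL ((N : ℤ) ^ n) α f' g' ∧ IsCoprime g' N ∧ 0 < g' ∧
      Int.gcd f' g' = 1 ∧ nrm f' g' ≤ nrm f g := by
  have hg0 : g ≠ 0 := by
    rintro rfl
    have := Int.isUnit_iff.1 (isCoprime_zero_left.1 hg)
    omega
  have hd : 0 < Int.gcd f g := Int.gcd_pos_of_ne_zero_right _ hg0
  obtain ⟨f1, g1, h1, h2, h3⟩ := Int.exists_gcd_one hd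
  generalize Int.gcd f g = d at hd h2 h3
  subst h2 h3
  have hc := hg.of_mul_left_left
  have hc2 := hg.of_mul_left_right
  have hin : InL ((N : ℤ) ^ n) α f1 g1 := by
    have : (N : ℤ) ^ n ∣ (g1 * α - f1) * d := by
      have e : (g1 * α - f1) * d = g1 * d * α - f1 * d := by ring
      rw [e]; exact h
    exact (hc2.symm.pow_left).dvd_of_dvd_mul_right this
  have hle : nrm f1 g1 ≤ nrm (f1 * d) (g1 * d) := by
    simp only [nrm, Int.natAbs_mul, Int.natAbs_natCast]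
    exact max_le_max (Nat.le_mul_of_pos_right _ hd) (Nat.le_mul_of_pos_right _ hd)
  have hg1 : g1 ≠ 0 := left_ne_zero_of_mul hg0
  rcases lt_or_gt_of_ne hg1 with hneg | hpos
  · refine ⟨-f1, -g1, ?_, hc.neg_left, by omega, by simpa using h1, by simpa [nrm] using hle⟩
    obtain ⟨x, hx⟩ := hin
    exact ⟨-x, by linarith⟩
  · exact ⟨f1, g1, hin, hc, hpos, h1, hle⟩

lemma max_cast (f g : ℤ) : max |(f : ℝ)| |(g : ℝ)| = (nrm f g : ℝ) := by
  have := congrArg (fun z : ℤ => (z : ℝ)) (nrm_cast f g)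
  simp only [Int.cast_natCast, Int.cast_max, Int.cast_abs] at this
  exact this.symm

lemma cplx_bound (N n : ℕ) (hN : 2 ≤ N) (a : Fin n → Fin N) :
    |cplx N n a - n / 2| ≤ Real.logb N (2 + 2 * N) +
      (Real.sqrt ((N ^ n : ℕ) : ℝ) / lam ((N ^ n : ℕ) : ℤ) (finFunctionFinEquiv a : ℕ)) /
        Real.log N := by
  set α : ℤ := ((finFunctionFinEquiv a : ℕ) : ℤ) with hα
  have hMz : ((N ^ n : ℕ) : ℤ) = (N : ℤ) ^ n := by push_cast; rfl
  rw [hMz]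
  set t := lam ((N : ℤ) ^ n) α with ht
  have ht0 : (0 : ℝ) < t := by exact_mod_cast lam_pos _ _
  have hN1 : (1 : ℝ) < N := by exact_mod_cast (by omega : 1 < N)
  have hL : 0 < Real.log N := Real.log_pos hN1
  have hlow : ∀ x ∈ {x | ∃ (b : ℕ → Fin N) (f g : ℤ), (∀ i : Fin n, b i = a i) ∧ IsRep N b f g ∧
      x = Real.logb N (max |(f : ℝ)| |(g : ℝ)|)}, Real.logb N t ≤ x := by
    rintro _ ⟨b, f, g, hb, ⟨h1, _, h3⟩, rfl⟩
    have h4 := h3 n
    rw [val_eq a b hb] at h4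
    have h5 : t ≤ nrm f g := lam_le (by omega) h4
    rw [max_cast]
    exact Real.logb_le_logb_of_le hN1 ht0 (by exact_mod_cast h5)
  obtain ⟨f0, g0, h1, h2, h3⟩ := good_vector N (by omega) ((N : ℤ) ^ n) α (by positivity)
  obtain ⟨f, g, k1, k2, k3, k4, k5⟩ := normalize N hN n α f0 g0 h1 h2
  obtain ⟨b, hb, hb2⟩ := exists_ext N n hN a f g k2 k1
  have hmem : Real.logb N (max |(f : ℝ)| |(g : ℝ)|) ∈ {x | ∃ (b : ℕ → Fin N) (f g : ℤ),
      (∀ i : Fin n, b i = a i) ∧ IsRep N b f g ∧ x = Real.logb N (max |(f : ℝ)| |(g : ℝ)|)} :=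
    ⟨b, f, g, hb, ⟨k3, k4, hb2⟩, rfl⟩
  have c1 : Real.logb N t ≤ cplx N n a := le_csInf ⟨_, hmem⟩ hlow
  have c2 : cplx N n a ≤ Real.logb N (max |(f : ℝ)| |(g : ℝ)|) := csInf_le ⟨_, hlow⟩ hmem
  rw [max_cast] at c2
  have hnpos : (0 : ℝ) < nrm f g := by
    have : 0 < nrm f g := by unfold nrm; omega
    exact_mod_cast this
  have h4 : (t : ℝ) * nrm f g ≤ (2 + 2 * N) * (N : ℝ) ^ n := by
    have h5 : (t : ℤ) * nrm f g ≤ (t : ℤ) * nrm f0 g0 :=
      mul_le_mul_of_nonneg_left (by exact_mod_cast k5) (by positivity)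
    exact_mod_cast h5.trans h3
  have h6 := Real.log_le_log (by positivity) h4
  rw [Real.log_mul ht0.ne' hnpos.ne', Real.log_mul (by positivity) (by positivity),
    Real.log_pow] at h6
  have hs : (0 : ℝ) < Real.sqrt ((N ^ n : ℕ) : ℝ) := Real.sqrt_pos.2 (by positivity)
  have h7 := Real.log_le_sub_one_of_pos (div_pos hs ht0)
  rw [Real.log_div hs.ne' ht0.ne', Real.log_sqrt (by positivity), Nat.cast_pow,
    Real.log_pow] at h7
  rw [Nat.cast_pow]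
  set q := Real.sqrt ((N : ℝ) ^ n) / t
  have hK : 0 ≤ Real.log (2 + 2 * N) := Real.log_nonneg (by linarith)
  unfold Real.logb at c1 c2 ⊢
  rw [div_le_iff₀ hL] at c1
  rw [le_div_iff₀ hL] at c2
  rw [← add_div, le_div_iff₀ hL, ← abs_of_pos hL, ← abs_mul, abs_le]
  constructor <;> linarith

theorem result (N : ℕ) (hN : 2 ≤ N) : ∃ C : ℝ, ∀ n : ℕ, |Efin N n - n / 2| ≤ C := by
  refine ⟨Real.logb N (2 + 2 * N) + 8 / Real.log N, fun n => ?_⟩
  have hN1 : (1 : ℝ) < N := by exact_mod_cast (by omega : 1 < N)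
  have hL : 0 < Real.log N := Real.log_pos hN1
  have hM : (0 : ℝ) < (N : ℝ) ^ n := by positivity
  have hcard : (Fintype.card (Fin n → Fin N) : ℝ) = (N : ℝ) ^ n := by simp
  have e : Efin N n - n / 2 = ((N : ℝ) ^ n)⁻¹ * ∑ a : Fin n → Fin N, (cplx N n a - n / 2) := by
    rw [sum_sub_distrib, sum_const, card_univ, nsmul_eq_mul, hcard, Efin]
    field_simp
  rw [e, abs_mul, abs_of_pos (inv_pos.2 hM), inv_mul_le_iff₀ hM]
  refine (abs_sum_le_sum_abs _ _).trans ((sum_le_sum fun a _ => cplx_bound N n hN a).trans ?_)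
  rw [sum_add_distrib, sum_const, card_univ, nsmul_eq_mul, hcard, ← sum_div]
  have h1 : ∑ a : Fin n → Fin N,
      Real.sqrt ((N ^ n : ℕ) : ℝ) / lam ((N ^ n : ℕ) : ℤ) (finFunctionFinEquiv a : ℕ) =
      ∑ α ∈ range (N ^ n), Real.sqrt ((N ^ n : ℕ) : ℝ) / lam ((N ^ n : ℕ) : ℤ) (α : ℕ) := by
    rw [← Fin.sum_univ_eq_sum_range
      (fun α => Real.sqrt ((N ^ n : ℕ) : ℝ) / lam ((N ^ n : ℕ) : ℤ) (α : ℕ))]
    exact Equiv.sum_comp finFunctionFinEquiv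
      (fun α : Fin (N ^ n) => Real.sqrt ((N ^ n : ℕ) : ℝ) / lam ((N ^ n : ℕ) : ℤ) (α : ℕ))
  have h2 := sum_inv_lam (N ^ n) (by positivity)
  rw [h1, mul_add]
  have h3 : (N : ℝ) ^ n * (8 / Real.log N) = 8 * ((N ^ n : ℕ) : ℝ) / Real.log N := by
    push_cast; ring
  rw [h3]
  gcongr

end Pool.Agent.Results.MP_68df70_lc.HalfLength
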